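import Pool.Agent.E8helper19.EN.Stm2

/-! EN5: finite measures on the line of equal mass with bounded second moments have a vaguely
convergent subsequence. -/

set_option autoImplicit false
open MeasureTheory Filter Topology Set
open scoped ENNReal NNReal

namespace Pool.Agent.E8helper93.EN

open Pool.Agent.E8helper19.EN

theorem t_CPT : S_CPT := by
  intro μ m A hfin hmom hmass
  have hA0 : 0 ≤ A := by rw [← hmass 0]; exact measureReal_nonneg
  have huniv : ∀ n, μ n univ = ENNReal.ofReal A := by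
    intro n
    have := hfin n
    rw [← hmass n, ofReal_measureReal]
  rcases hA0.lt_or_eq with hA | hA
  swap
  · refine ⟨id, 0, strictMono_id, inferInstance, fun g _ _ => ?_⟩
    have hz : ∀ n, μ n = 0 := by
      intro n
      rw [← Measure.measure_univ_eq_zero, huniv n, ← hA, ENNReal.ofReal_zero]
    simp [hz]
  obtain ⟨N, hN⟩ := eventually_atTop.mp hmom
  obtain ⟨c, hc⟩ : ∃ c : ℝ≥0∞, c = (ENNReal.ofReal A)⁻¹ := ⟨_, rfl⟩
  have hA' : ENNReal.ofReal A ≠ 0 := by simpa using hA
  have hcA : c * ENNReal.ofReal A = 1 := by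
    rw [hc]; exact ENNReal.inv_mul_cancel hA' ENNReal.ofReal_ne_top
  have hcr : c.toReal = A⁻¹ := by
    rw [hc, ENNReal.toReal_inv, ENNReal.toReal_ofReal hA.le]
  have hct : c ≠ ⊤ := by rw [hc]; simpa using hA
  have hprob : ∀ n, IsProbabilityMeasure (c • μ n) := by
    intro n
    refine ⟨?_⟩
    rw [Measure.smul_apply, smul_eq_mul, huniv, hcA]
  let P : ℕ → ProbabilityMeasure ℝ := fun n => ⟨c • μ (n + N), hprob _⟩
  have htight : IsTightMeasureSet {((p : ProbabilityMeasure ℝ) : Measure ℝ) | p ∈ range P} := by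
    rw [isTightMeasureSet_iff_exists_isCompact_measure_compl_le]
    intro ε hε
    by_cases hεt : ε = ⊤
    · exact ⟨∅, isCompact_empty, fun p _ => by rw [hεt]; exact le_top⟩
    have he : 0 < ε.toReal := ENNReal.toReal_pos hε.ne' hεt
    obtain ⟨R, hR⟩ : ∃ R : ℝ, R = Real.sqrt (|m| / (A * ε.toReal)) + 1 := ⟨_, rfl⟩
    have hs0 : 0 ≤ Real.sqrt (|m| / (A * ε.toReal)) := Real.sqrt_nonneg _
    have hR0 : 0 < R := by rw [hR]; linarith
    have hR2 : |m| / (A * ε.toReal) ≤ R ^ 2 := by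
      have := Real.sq_sqrt (show 0 ≤ |m| / (A * ε.toReal) by positivity)
      rw [hR]
      nlinarith
    have hmR : m ≤ A * ε.toReal * R ^ 2 := by
      rw [div_le_iff₀ (by positivity)] at hR2
      exact (le_abs_self m).trans (by linarith)
    refine ⟨Icc (-R) R, isCompact_Icc, ?_⟩
    rintro _ ⟨_, ⟨n, rfl⟩, rfl⟩
    have hfn := hfin (n + N)
    obtain ⟨hint, hle⟩ := hN (n + N) (Nat.le_add_left _ _)
    have hch := mul_meas_ge_le_integral_of_nonneg (μ := μ (n + N))
      (Eventually.of_forall (fun x : ℝ => sq_nonneg x)) hint (R ^ 2)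
    have hsub : (Icc (-R) R)ᶜ ⊆ {x : ℝ | R ^ 2 ≤ x ^ 2} := by
      intro x hx
      by_contra hcon
      apply hx
      simp only [mem_ofPred_eq, not_le] at hcon
      have := abs_lt_of_sq_lt_sq hcon hR0.le
      exact ⟨(abs_lt.mp this).1.le, (abs_lt.mp this).2.le⟩
    have hreal : (μ (n + N)).real (Icc (-R) R)ᶜ ≤ A * ε.toReal := by
      have h1 : (μ (n + N)).real (Icc (-R) R)ᶜ ≤ (μ (n + N)).real {x : ℝ | R ^ 2 ≤ x ^ 2} :=
        measureReal_mono hsub
      have h2 : R ^ 2 * (μ (n + N)).real {x : ℝ | R ^ 2 ≤ x ^ 2} ≤ A * ε.toReal * R ^ 2 :=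
        hch.trans (hle.trans hmR)
      have h3 : 0 < R ^ 2 := by positivity
      have h4 : (μ (n + N)).real {x : ℝ | R ^ 2 ≤ x ^ 2} ≤ A * ε.toReal := by
        by_contra hcon
        push Not at hcon
        nlinarith [mul_lt_mul_of_pos_left hcon h3]
      exact h1.trans h4
    have hm' : μ (n + N) (Icc (-R) R)ᶜ ≤ ENNReal.ofReal A * ε := by
      rw [← ENNReal.ofReal_toReal hεt, ← ENNReal.ofReal_mul hA.le, ← ofReal_measureReal]
      exact ENNReal.ofReal_le_ofReal hreal
    change (c • μ (n + N)) (Icc (-R) R)ᶜ ≤ ε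
    rw [Measure.smul_apply, smul_eq_mul]
    calc c * μ (n + N) (Icc (-R) R)ᶜ ≤ c * (ENNReal.ofReal A * ε) := by gcongr
      _ = ε := by rw [← mul_assoc, hcA, one_mul]
  have hcomp := isCompact_closure_of_isTightMeasureSet htight
  obtain ⟨Q, -, τ, hτ, hlim⟩ := hcomp.tendsto_subseq
    (fun n => subset_closure (mem_range_self (f := P) n))
  refine ⟨fun n => τ n + N, ENNReal.ofReal A • (Q : Measure ℝ), fun a b h =>
    Nat.add_lt_add_right (hτ h) N, ?_, fun g hg hgc => ?_⟩
  · refine ⟨?_⟩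
    rw [Measure.smul_apply, smul_eq_mul, measure_univ, mul_one]
    exact ENNReal.ofReal_lt_top
  · obtain ⟨C, hC⟩ := hg.bounded_above_of_compact_support hgc
    have h1 := ProbabilityMeasure.tendsto_iff_forall_integral_tendsto.mp hlim
      (BoundedContinuousFunction.ofNormedAddCommGroup g hg C hC)
    have h2 := h1.const_mul A
    have e1 : ∀ n, A * ∫ x, g x ∂((P (τ n) : ProbabilityMeasure ℝ) : Measure ℝ) =
        ∫ x, g x ∂(μ (τ n + N)) := by
      intro n
      change A * ∫ x, g x ∂(c • μ (τ n + N)) = _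
      rw [integral_smul_measure, hcr, smul_eq_mul, ← mul_assoc, mul_inv_cancel₀ hA.ne', one_mul]
    have e2 : ∫ x, g x ∂(ENNReal.ofReal A • (Q : Measure ℝ)) = A * ∫ x, g x ∂(Q : Measure ℝ) := by
      rw [integral_smul_measure, ENNReal.toReal_ofReal hA.le, smul_eq_mul]
    rw [e2]
    refine h2.congr fun n => ?_
    exact e1 n

end Pool.Agent.E8helper93.EN
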